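import Pool.Agent.helper56.P2B.SpecP

/-!
# p2b:PAR (MP_70a088_an, P2): parabolic real affine maps have a big place at bounded distance (helper30)
-/

set_option autoImplicit false

open Complex Metric Set Filter Topology MeasureTheory
open Pool.Agent.helper98.ILF
open WP (it)
open HY (UD T S hd UN RM)
open PM
open PL (TP LO PZ GJ INR PG DK ht tr DI CY SUBH hG hq BJ)
open P2 (SS FLS FL CLS FR TL)

noncomputable section

namespace P2B

theorem PAR_open : IsOpen UH := by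
  unfold UH
  exact isOpen_lt continuous_const Complex.continuous_im

theorem PAR_ball (z : ℂ) : ball z z.im ⊆ UH := by
  intro w hw
  have h1 : ‖w - z‖ < z.im := by simpa [dist_eq_norm] using hw
  have h2 : |(w - z).im| < z.im := (Complex.abs_im_le_norm _).trans_lt h1
  have h3 := (abs_lt.1 h2).1
  rw [Complex.sub_im] at h3
  show 0 < w.im
  linarith

/-- the step of the translation. -/
theorem PAR_step (C : ℝ) (ψ : ℂ → ℂ) (hd : DifferentiableOn ℂ ψ UH)
    (hC : ∀ (G : ℂ → ℂ) (a : ℂ) (r : ℝ), 0 < r → DifferentiableOn ℂ G (ball a r) → InjOn G (ball a r) →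
      ‖iteratedDeriv 2 G a‖ ≤ C * ‖deriv G a‖ / r ∧
      ∀ x ∈ ball a ((1 - (1 / 2 : ℝ)) * r), ‖deriv G x‖ ≤ C * ‖deriv G a‖ ∧ ‖deriv G a‖ ≤ C * ‖deriv G x‖ ∧
        ‖G x - G a‖ ≤ C * ‖x - a‖ * ‖deriv G a‖ ∧
        ‖deriv G x - deriv G a‖ ≤ C * (‖x - a‖ / r) * ‖deriv G a‖)
    (hC0 : 0 ≤ C) (hinj : InjOn ψ UH) (s : ℝ) (hs : |s| = 1) (z : ℂ) (hz : 3 ≤ z.im) :
    ‖ψ (z + s) - ψ z - s * deriv ψ z‖ ≤ C / z.im * ‖deriv ψ z‖ := by
  have hz0 : 0 < z.im := by linarith
  have hK := (hC ψ z z.im hz0 (hd.mono (PAR_ball z)) (hinj.mono (PAR_ball z))).2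
  have hcb : ∀ w ∈ closedBall z 1, w ∈ ball z ((1 - (1 / 2 : ℝ)) * z.im) ∧ ‖w - z‖ ≤ 1 := by
    intro w hw
    have h1 : ‖w - z‖ ≤ 1 := by simpa [dist_eq_norm] using hw
    refine ⟨?_, h1⟩
    rw [mem_ball, dist_eq_norm]
    linarith
  have hUH : ∀ w ∈ closedBall z 1, w ∈ UH := by
    intro w hw
    apply PAR_ball z
    rw [mem_ball, dist_eq_norm]
    have := (hcb w hw).2
    linarith
  have hder : ∀ w ∈ closedBall z 1, HasDerivAt (fun w => ψ w - w * deriv ψ z) (deriv ψ w - deriv ψ z) w := by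
    intro w hw
    have h1 : HasDerivAt ψ (deriv ψ w) w :=
      ((hd w (hUH w hw)).differentiableAt (PAR_open.mem_nhds (hUH w hw))).hasDerivAt
    have h2 : HasDerivAt (fun w : ℂ => w * deriv ψ z) (1 * deriv ψ z) w := (hasDerivAt_id w).mul_const _
    have h3 : HasDerivAt (fun w => ψ w - w * deriv ψ z) (deriv ψ w - 1 * deriv ψ z) w := h1.sub h2
    rw [one_mul] at h3
    exact h3
  have hbd : ∀ w ∈ closedBall z 1, ‖deriv (fun w => ψ w - w * deriv ψ z) w‖ ≤ C / z.im * ‖deriv ψ z‖ := by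
    intro w hw
    rw [(hder w hw).deriv]
    refine ((hK w (hcb w hw).1).2.2.2).trans ?_
    have h1 : C * (‖w - z‖ / z.im) ≤ C / z.im := by
      have h2 : ‖w - z‖ / z.im ≤ 1 / z.im := by
        gcongr
        exact (hcb w hw).2
      calc C * (‖w - z‖ / z.im) ≤ C * (1 / z.im) := mul_le_mul_of_nonneg_left h2 hC0
        _ = C / z.im := by ring
    exact mul_le_mul_of_nonneg_right h1 (norm_nonneg _)
  have hmem : z + (s : ℂ) ∈ closedBall z 1 := by
    rw [mem_closedBall, dist_eq_norm, add_sub_cancel_left, Complex.norm_real, Real.norm_eq_abs, hs]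
  have h5 := Convex.norm_image_sub_le_of_norm_deriv_le (𝕜 := ℂ)
    (fun w hw => (hder w hw).differentiableAt) hbd (convex_closedBall z 1)
    (mem_closedBall_self zero_le_one) hmem
  have h6 : ‖z + (s : ℂ) - z‖ = 1 := by
    rw [add_sub_cancel_left, Complex.norm_real, Real.norm_eq_abs, hs]
  rw [h6, mul_one] at h5
  have h7 : ψ (z + s) - (z + s) * deriv ψ z - (ψ z - z * deriv ψ z) =
      ψ (z + s) - ψ z - s * deriv ψ z := by ring
  rw [← h7]
  exact h5

/-- **PAR** -/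
theorem PAR (hKO0 : V3.KO0_stmt) (hKO1 : V3.KO1_stmt) (hKO3 : V3.KO3_stmt) : PAR_stmt := by
  obtain ⟨C, hC1, hC⟩ := hKO3 (1 / 2) (by norm_num) (by norm_num)
  obtain ⟨C', hC'1, hC'⟩ := hKO1
  set Y : ℝ := 100 * C with hY
  have hY0 : 0 < Y := by positivity
  refine ⟨1 / (4 * C' * Y), by positivity, ?_⟩
  intro ψ s a y₀ b hs ha hb hd hinj hrel hy₀ hzero hnorm
  have hs0 : s ≠ 0 := by
    intro h
    rw [h] at hs
    simp at hs
  have hsUH : ∀ z ∈ UH, z + (s : ℂ) ∈ UH := by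
    intro z hz
    show 0 < (z + (s : ℂ)).im
    have h1 : 0 < z.im := hz
    simpa using h1
  have hstep := PAR_step C ψ hd hC (by linarith) hinj s hs
  have hz0 : (y₀ : ℂ) * I ∈ UH := by
    show 0 < ((y₀ : ℂ) * I).im
    simpa using hy₀
  have him0 : ((y₀ : ℂ) * I).im = y₀ := by simp
  have hD0 : ‖deriv ψ (y₀ * I)‖ = 1 / (2 * y₀) := by
    field_simp
    linarith
  -- (1)
  have hYy : Y ≤ y₀ := by
    by_contra hlt
    push Not at hlt
    have hr0 : 0 < min y₀ 1 := lt_min hy₀ one_pos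
    have hsub : ball ((y₀ : ℂ) * I) (min y₀ 1) ⊆ UH := by
      refine (ball_subset_ball ?_).trans (PAR_ball _)
      rw [him0]
      exact min_le_left _ _
    have h1 := hC' ψ (y₀ * I) (min y₀ 1) hr0 (hd.mono hsub) (hinj.mono hsub)
    rw [hzero, hD0] at h1
    have h2 : ψ ((y₀ : ℂ) * I + s) = b := by
      rw [hrel _ hz0, hzero]
      simp
    have h3 : b ∉ ψ '' ball ((y₀ : ℂ) * I) (min y₀ 1) := by
      rintro ⟨w, hw, hwb⟩
      have h4 : w = (y₀ : ℂ) * I + s := hinj (hsub hw) (hsUH _ hz0) (hwb.trans h2.symm)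
      rw [h4, mem_ball, dist_eq_norm, add_sub_cancel_left, Complex.norm_real, Real.norm_eq_abs, hs] at hw
      exact absurd hw (not_lt.2 (min_le_right _ _))
    have h4 : min y₀ 1 * (1 / (2 * y₀)) / C' ≤ ‖b‖ := by
      by_contra h5
      push Not at h5
      apply h3
      apply h1
      rw [mem_ball, dist_zero_right]
      exact h5
    have h5 : 1 / (2 * C' * Y) ≤ min y₀ 1 * (1 / (2 * y₀)) / C' := by
      rw [mul_one_div, div_div]
      rw [div_le_div_iff₀ (by positivity) (by positivity)]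
      have h6 : y₀ ≤ min y₀ 1 * Y := by
        rcases le_total y₀ 1 with h7 | h7
        · rw [min_eq_left h7]
          have : 1 ≤ Y := by linarith
          nlinarith
        · rw [min_eq_right h7, one_mul]
          exact hlt.le
      nlinarith
    have h6 : 1 / (4 * C' * Y) < 1 / (2 * C' * Y) := by
      apply one_div_lt_one_div_of_lt (by positivity)
      have : 0 < C' * Y := by positivity
      nlinarith
    linarith
  have hder0 : ∀ z ∈ UH, deriv ψ z ≠ 0 := fun z hz => hKO0 ψ UH PAR_open hd hinj z hz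
  -- (2)
  have ha1 : a = 1 := by
    by_contra hne
    have hne' : (1 : ℂ) - a ≠ 0 := by
      intro h
      apply hne
      have : (a : ℂ) = 1 := (sub_eq_zero.1 h).symm
      exact_mod_cast this
    set p : ℂ := b / (1 - a) with hp
    have hpb : b = p * (1 - a) := by
      rw [hp, div_mul_cancel₀ _ hne']
    have hpn : ∀ z ∈ UH, ψ z ≠ p := by
      intro z hz h1
      have h2 : ψ (z + s) = p := by
        rw [hrel z hz, h1, hpb]
        ring
      have h3 : z + s = z := hinj (hsUH z hz) hz (h2.trans h1.symm)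
      have h4 : (s : ℂ) = 0 := by
        linear_combination h3
      exact hs0 (by exact_mod_cast h4)
    have hbig : ∀ z : ℂ, 3 ≤ z.im → C ≤ z.im → |a - 1| * z.im ≤ 2 * C' := by
      intro z hz3 hzC
      have hzi : 0 < z.im := by linarith
      have hz : z ∈ UH := hzi
      have h1 := hC' ψ z z.im hzi (hd.mono (PAR_ball z)) (hinj.mono (PAR_ball z))
      have h2 : z.im * ‖deriv ψ z‖ / C' ≤ ‖ψ z - p‖ := by
        by_contra h3
        push Not at h3
        have h4 : p ∈ ball (ψ z) (z.im * ‖deriv ψ z‖ / C') := by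
          rw [mem_ball, dist_comm, dist_eq_norm]
          exact h3
        obtain ⟨w, hw, hwp⟩ := h1 h4
        exact hpn w (PAR_ball z hw) hwp
      have h3 : ψ (z + s) - ψ z = (a - 1) * (ψ z - p) := by
        rw [hrel z hz, hpb]
        ring
      have h4 : ‖ψ (z + s) - ψ z‖ = |a - 1| * ‖ψ z - p‖ := by
        rw [h3, norm_mul]
        congr 1
        rw [← Complex.ofReal_one, ← Complex.ofReal_sub, Complex.norm_real, Real.norm_eq_abs]
      have h5 := hstep z hz3
      have h6 : ‖(s : ℂ) * deriv ψ z‖ = ‖deriv ψ z‖ := by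
        rw [norm_mul, Complex.norm_real, Real.norm_eq_abs, hs, one_mul]
      have h7 : ‖ψ (z + s) - ψ z‖ ≤ 2 * ‖deriv ψ z‖ := by
        have h8 : ‖ψ (z + s) - ψ z‖ ≤ ‖ψ (z + s) - ψ z - s * deriv ψ z‖ + ‖(s : ℂ) * deriv ψ z‖ := by
          have := norm_add_le (ψ (z + s) - ψ z - s * deriv ψ z) ((s : ℂ) * deriv ψ z)
          simpa using this
        have h9 : C / z.im ≤ 1 := by
          rw [div_le_one hzi]
          exact hzC
        have h10 : C / z.im * ‖deriv ψ z‖ ≤ 1 * ‖deriv ψ z‖ :=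
          mul_le_mul_of_nonneg_right h9 (norm_nonneg _)
        linarith
      have h8 : 0 < ‖deriv ψ z‖ := norm_pos_iff.2 (hder0 z hz)
      have h9 : |a - 1| * (z.im * ‖deriv ψ z‖ / C') ≤ 2 * ‖deriv ψ z‖ := by
        calc |a - 1| * (z.im * ‖deriv ψ z‖ / C') ≤ |a - 1| * ‖ψ z - p‖ :=
              mul_le_mul_of_nonneg_left h2 (abs_nonneg _)
          _ = ‖ψ (z + s) - ψ z‖ := h4.symm
          _ ≤ 2 * ‖deriv ψ z‖ := h7
      have h10 : |a - 1| * z.im * ‖deriv ψ z‖ ≤ 2 * C' * ‖deriv ψ z‖ := by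
        have h11 : |a - 1| * (z.im * ‖deriv ψ z‖ / C') * C' = |a - 1| * z.im * ‖deriv ψ z‖ := by
          have : C' ≠ 0 := by positivity
          field_simp
        have h12 := mul_le_mul_of_nonneg_right h9 (by linarith : (0:ℝ) ≤ C')
        rw [h11] at h12
        linarith
      exact le_of_mul_le_mul_right h10 h8
    have hA : 0 < |a - 1| := abs_pos.2 (sub_ne_zero.2 hne)
    have hq : 0 < 2 * C' / |a - 1| := by positivity
    have him : ((((3 + C + 2 * C' / |a - 1| + 1 : ℝ)) : ℂ) * I).im = 3 + C + 2 * C' / |a - 1| + 1 := by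
      rw [Complex.mul_im, Complex.ofReal_re, Complex.ofReal_im, Complex.I_re, Complex.I_im]
      ring
    have h1 := hbig ((((3 + C + 2 * C' / |a - 1| + 1 : ℝ)) : ℂ) * I) (by rw [him]; linarith)
      (by rw [him]; linarith)
    rw [him] at h1
    have h2 : |a - 1| * (3 + C + 2 * C' / |a - 1| + 1) = |a - 1| * (4 + C) + 2 * C' := by
      field_simp
      ring
    rw [h2] at h1
    have h3 : 0 < |a - 1| * (4 + C) := by positivity
    linarith
  -- (3)
  have hkey : ∀ z : ℂ, y₀ ≤ z.im → ‖b‖ ≤ 1.01 * ‖deriv ψ z‖ ∧ 0.99 * ‖deriv ψ z‖ ≤ ‖b‖ := by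
    intro z hzy
    have hz3 : 3 ≤ z.im := by linarith
    have hzi : 0 < z.im := by linarith
    have hz : z ∈ UH := hzi
    have h1 : ψ (z + s) - ψ z = b := by
      rw [hrel z hz, ha1]
      push_cast
      ring
    have h2 := hstep z hz3
    rw [h1] at h2
    have h3 : C / z.im ≤ 0.01 := by
      rw [div_le_iff₀ hzi]
      linarith
    have h4 : ‖b - s * deriv ψ z‖ ≤ 0.01 * ‖deriv ψ z‖ :=
      h2.trans (mul_le_mul_of_nonneg_right h3 (norm_nonneg _))
    have h5 : ‖(s : ℂ) * deriv ψ z‖ = ‖deriv ψ z‖ := by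
      rw [norm_mul, Complex.norm_real, Real.norm_eq_abs, hs, one_mul]
    have h6 : ‖b‖ ≤ ‖b - s * deriv ψ z‖ + ‖(s : ℂ) * deriv ψ z‖ := by
      have := norm_add_le (b - s * deriv ψ z) ((s : ℂ) * deriv ψ z)
      simpa using this
    have h7 : ‖(s : ℂ) * deriv ψ z‖ ≤ ‖b - s * deriv ψ z‖ + ‖b‖ := by
      have h8 : (s : ℂ) * deriv ψ z = b - (b - s * deriv ψ z) := by ring
      have h9 := norm_sub_le b (b - s * deriv ψ z)
      rw [← h8] at h9
      linarith
    constructor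
    · linarith
    · linarith
  obtain ⟨h01, h02⟩ := hkey (y₀ * I) (by rw [him0])
  rw [hD0] at h01 h02
  have hyim : (((2.5 * y₀ : ℝ) : ℂ) * I).im = 2.5 * y₀ := by
    rw [Complex.mul_im, Complex.ofReal_re, Complex.ofReal_im, Complex.I_re, Complex.I_im]
    ring
  have hbl : 0.99 / 2 ≤ ‖b‖ * y₀ := by
    have h1 : 0.99 * (1 / (2 * y₀)) * y₀ = 0.99 / 2 := by field_simp
    have h2 := mul_le_mul_of_nonneg_right h02 hy₀.le
    linarith
  have hbu : ‖b‖ * y₀ ≤ 1.01 / 2 := by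
    have h1 : 1.01 * (1 / (2 * y₀)) * y₀ = 1.01 / 2 := by field_simp
    have h2 := mul_le_mul_of_nonneg_right h01 hy₀.le
    linarith
  refine ⟨2.5 * y₀, by linarith, ?_, ?_⟩
  · -- the size of the value
    have hconv : Convex ℝ {z : ℂ | y₀ ≤ z.im} := convex_halfSpace_im_ge y₀
    have hdf : ∀ z ∈ {z : ℂ | y₀ ≤ z.im}, DifferentiableAt ℂ ψ z := by
      intro z hz
      have hz' : z ∈ UH := lt_of_lt_of_le hy₀ hz
      exact (hd z hz').differentiableAt (PAR_open.mem_nhds hz')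
    have hbd : ∀ z ∈ {z : ℂ | y₀ ≤ z.im}, ‖deriv ψ z‖ ≤ ‖b‖ / 0.99 := by
      intro z hz
      rw [le_div_iff₀ (by norm_num)]
      have := (hkey z hz).2
      linarith
    have h5 := hconv.norm_image_sub_le_of_norm_deriv_le hdf hbd
      (show (y₀ : ℂ) * I ∈ {z : ℂ | y₀ ≤ z.im} by show y₀ ≤ _; rw [him0])
      (show ((2.5 * y₀ : ℝ) : ℂ) * I ∈ {z : ℂ | y₀ ≤ z.im} by show y₀ ≤ _; rw [hyim]; linarith)
    rw [hzero, sub_zero] at h5
    have h6 : ‖((2.5 * y₀ : ℝ) : ℂ) * I - (y₀ : ℂ) * I‖ = 1.5 * y₀ := by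
      have h7 : ((2.5 * y₀ : ℝ) : ℂ) * I - (y₀ : ℂ) * I = ((1.5 * y₀ : ℝ) : ℂ) * I := by
        push_cast
        ring
      rw [h7, norm_mul, Complex.norm_I, mul_one, Complex.norm_real, Real.norm_eq_abs,
        abs_of_pos (by positivity)]
    rw [h6] at h5
    have h8 : ‖b‖ / 0.99 * (1.5 * y₀) = ‖b‖ * y₀ * (1.5 / 0.99) := by ring
    rw [h8] at h5
    have h9 : ‖b‖ * y₀ * (1.5 / 0.99) ≤ 1.01 / 2 * (1.5 / 0.99) :=
      mul_le_mul_of_nonneg_right hbu (by norm_num)
    have h10 : (1.01 / 2 * (1.5 / 0.99) : ℝ) < 4 := by norm_num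
    linarith
  · have h1 := (hkey (((2.5 * y₀ : ℝ) : ℂ) * I) (by rw [hyim]; linarith)).1
    have h2 := mul_le_mul_of_nonneg_right h1 hy₀.le
    nlinarith

end P2B
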